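import Mathlib

/-!
# A counting lemma for random functions
-/

namespace Pool.Agent.V8H49.Shrink

open Finset

theorem count {I V : Type} [Fintype I] [DecidableEq I] [Fintype V] [DecidableEq V]
    (Free : (I → V) → I → Prop) (Hit : (I → V) → Finset (I × V)) (q : ℕ)
    (hHit : ∀ ω, (Hit ω).card ≤ q)
    (hfree : ∀ ω i v, Free ω i → Hit (Function.update ω i v) = Hit ω)
    (Bad : Finset (I → V)) (hBad : ∀ ω ∈ Bad, ∃ i, Free ω i ∧ (i, ω i) ∈ Hit ω) :
    Bad.card * Fintype.card V ≤ q * Fintype.card (I → V) := by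
  classical
  let S : I → Finset (I → V) := fun i => univ.filter (fun ω => Free ω i ∧ (i, ω i) ∈ Hit ω)
  have h1 : Bad ⊆ univ.biUnion S := by
    intro ω hω
    obtain ⟨i, hi⟩ := hBad ω hω
    exact mem_biUnion.2 ⟨i, mem_univ _, mem_filter.2 ⟨mem_univ _, hi⟩⟩
  have h2 : Bad.card ≤ ∑ i, (S i).card := (card_le_card h1).trans card_biUnion_le
  have h3 : ∀ i, (S i).card * Fintype.card V ≤ ∑ ω, ∑ v, if (i, v) ∈ Hit ω then 1 else 0 := by
    intro i
    have e1 : (∑ ω, ∑ v, if (i, v) ∈ Hit ω then 1 else 0) =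
        (univ.filter (fun p : (I → V) × V => (i, p.2) ∈ Hit p.1)).card := by
      rw [card_filter, Fintype.sum_prod_type]
    rw [e1, ← card_univ, ← card_product]
    refine card_le_card_of_injOn (fun p => (Function.update p.1 i p.2, p.1 i)) ?_ ?_
    · rintro ⟨ω, v⟩ h
      rw [mem_coe, mem_product, mem_filter] at h
      obtain ⟨⟨_, h4, h5⟩, _⟩ := h
      rw [mem_coe, mem_filter]
      refine ⟨mem_univ _, ?_⟩
      dsimp only
      rw [hfree ω i v h4]
      exact h5
    · rintro ⟨ω, v⟩ _ ⟨ω', v'⟩ _ h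
      simp only [Prod.mk.injEq] at h
      obtain ⟨h4, h5⟩ := h
      have h6 : v = v' := by simpa using congrFun h4 i
      refine Prod.ext ?_ h6
      funext j
      by_cases hj : j = i
      · subst hj; exact h5
      · have := congrFun h4 j
        simpa [Function.update_of_ne hj] using this
  calc Bad.card * Fintype.card V ≤ (∑ i, (S i).card) * Fintype.card V :=
        Nat.mul_le_mul_right _ h2
    _ = ∑ i, (S i).card * Fintype.card V := sum_mul _ _ _
    _ ≤ ∑ i, ∑ ω, ∑ v, (if (i, v) ∈ Hit ω then 1 else 0) := sum_le_sum fun i _ => h3 i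
    _ = ∑ ω, ∑ i, ∑ v, (if (i, v) ∈ Hit ω then 1 else 0) := sum_comm
    _ = ∑ ω, (Hit ω).card := by
        refine sum_congr rfl fun ω _ => ?_
        have : (Hit ω).card = (univ.filter (fun p : I × V => p ∈ Hit ω)).card := by
          congr 1; ext p; simp
        rw [this, card_filter, Fintype.sum_prod_type]
    _ ≤ ∑ _ω : I → V, q := sum_le_sum fun ω _ => hHit ω
    _ = q * Fintype.card (I → V) := by rw [sum_const, card_univ, smul_eq_mul, mul_comm]

end Pool.Agent.V8H49.Shrink
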