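import Pool.Agent.H628R3.RO.Defs

/-!
# Shrinking, disjoint `NP`-pairs and their Turing reductions, relative to an oracle
-/

namespace Pool.Agent.V8H49.Shrink

open Pool.Agent.NPC Pool.Agent.H628R3.RO

/-- The shrinking property of a class `C` of languages: for `A` and `B` in `C` there are disjoint
`A'` and `B'` in `C` with `A' ⊆ A`, `B' ⊆ B` and `A' ∪ B' = A ∪ B`. -/
def Shrinking (C : Set (List Bool) → Prop) : Prop :=
  ∀ A B, C A → C B → ∃ A' B', C A' ∧ C B' ∧ A' ⊆ A ∧ B' ⊆ B ∧ A' ∩ B' = ∅ ∧ A' ∪ B' = A ∪ B

/-- `(A, B)` is a disjoint `NP`-pair relative to `O`: both sets are nonempty sets in `NP`, and they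
are disjoint. -/
structure IsNPPair (O : Oracle) (A B : Set (List Bool)) : Prop where
  /-- the first set is in `NP` -/
  left : IsNP O A
  /-- the second set is in `NP` -/
  right : IsNP O B
  /-- the first set is nonempty -/
  left_nonempty : A.Nonempty
  /-- the second set is nonempty -/
  right_nonempty : B.Nonempty
  /-- the sets are disjoint -/
  disjoint : A ∩ B = ∅

/-- The set of all separators of the pair `(A, B)`. -/
def Sep (A B : Set (List Bool)) : Set (Set (List Bool)) := {S | A ⊆ S ∧ B ∩ S = ∅}

/-- The disjoint union of the oracles `A` and `E`. -/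
def join (A E : Oracle) : Oracle
  | [] => false
  | false :: z => A z
  | true :: z => E z

open Classical in
/-- A set as an oracle. -/
noncomputable def chi (S : Set (List Bool)) : Oracle := fun x => decide (x ∈ S)

/-- `S` is polynomial-time Turing reducible to `T`, relative to `O`: it is decided in polynomial
time with the two oracles `O` and `T`. -/
def TRed (O : Oracle) (S T : Set (List Bool)) : Prop :=
  ∃ F : List Bool → List Bool, IsFP (join O (chi T)) F ∧ ∀ x, x ∈ S ↔ F x = [true]

/-- The reducibility of pairs: `(A, B)` is reducible to `(C, D)` if for every separator `T` of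
`(C, D)` some separator `S` of `(A, B)` is polynomial-time Turing reducible to `T` (everything
relative to `O`). -/
def PPRed (O : Oracle) (A B C D : Set (List Bool)) : Prop :=
  ∀ T ∈ Sep C D, ∃ S ∈ Sep A B, TRed O S T

/-- `K` is complete for `NP` under polynomial-time many-one reductions, relative to `O`. -/
def NPComplete (O : Oracle) (K : Set (List Bool)) : Prop := IsNP O K ∧ NPHardRel O K

/-- `(A, B)` is a disjoint `NP`-pair which is `NP`-hard, relative to `O`: there are `NP`-complete
sets, and for each such set `K` the pair of `K` and its complement is reducible to `(A, B)`. -/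
def NPHardPair (O : Oracle) (A B : Set (List Bool)) : Prop :=
  IsNPPair O A B ∧ (∃ K, NPComplete O K) ∧ ∀ K, NPComplete O K → PPRed O K Kᶜ A B

end Pool.Agent.V8H49.Shrink
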