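import Pool.Agent.V8H49.Shrink.Stage

/-!
# The limit of the construction
-/

namespace Pool.Agent.V8H49.Shrink

open Pool.Agent.NPC Pool.Agent.H628R3.RO

theorem tendsto_poly (p : Polynomial ℕ) :
    Filter.Tendsto (fun n : ℕ => ((p.eval n : ℕ) : ℝ) / 2 ^ n) Filter.atTop (nhds 0) := by
  induction p using Polynomial.induction_on' with
  | add p q hp hq =>
    have := hp.add hq
    rw [add_zero] at this
    refine this.congr fun n => ?_
    rw [Polynomial.eval_add]
    push_cast
    ring
  | monomial k a =>
    have h := (tendsto_pow_const_div_const_pow_of_one_lt k (r := (2 : ℝ)) (by norm_num)).const_mul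
      (a : ℝ)
    rw [mul_zero] at h
    refine h.congr fun n => ?_
    rw [Polynomial.eval_monomial]
    push_cast
    ring

theorem exists_poly_lt (p : Polynomial ℕ) (N : ℕ) : ∃ n ≥ N, p.eval n < 2 ^ n := by
  have h := (tendsto_poly p).eventually (gt_mem_nhds (show (0 : ℝ) < 1 by norm_num))
  obtain ⟨n, h1, h2⟩ := (h.and (Filter.eventually_ge_atTop N)).exists
  refine ⟨n, h2, ?_⟩
  rw [div_lt_one (by positivity)] at h1
  exact_mod_cast h1

/-- There is a world in which no pair is a shrinking. -/
theorem exists_world {T : Oracle → List Bool → Prop} (hT : Cert T)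
    (st : ℕ → List Bool → List Bool)
    (hst : ∀ i j N, ∃ n ≥ N, (st i (List.replicate n true)).length +
      (st j (List.replicate n true)).length < 2 ^ n) :
    ∃ (w : List Bool → List Bool) (D : List Bool → Bool) (O : Oracle),
      (∀ u, (w u).length = u.length) ∧ Valid T w D O ∧ ∀ i j, ∃ x, ¬ OK T st O i j x := by
  choose nxt h1 h2 h3 h4 using extend hT st hst
  let S₀ : State := ⟨fun u => u, fun _ => false, 0, fun _ => rfl, fun _ _ => rfl⟩
  let s : ℕ → State := fun k => Nat.rec S₀ (fun k S => nxt S k.unpair.1 k.unpair.2) k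
  have hs : ∀ k, s (k + 1) = nxt (s k) k.unpair.1 k.unpair.2 := fun k => rfl
  have hN : ∀ k, (s k).N < (s (k + 1)).N := by
    intro k
    rw [hs]
    exact h1 _ _ _
  have hN' : ∀ k, k ≤ (s k).N := by
    intro k
    induction k with
    | zero => exact Nat.zero_le _
    | succ k ih => have := hN k; omega
  have hmono : ∀ k m, (s k).N ≤ (s (k + m)).N ∧
      (∀ u : List Bool, u.length < (s k).N → (s (k + m)).w u = (s k).w u) ∧
      (∀ z : List Bool, z.length < (s k).N → (s (k + m)).D z = (s k).D z) := by
    intro k m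
    induction m with
    | zero => exact ⟨le_rfl, fun _ _ => rfl, fun _ _ => rfl⟩
    | succ m ih =>
      obtain ⟨e1, e2, e3⟩ := ih
      have e4 := hN (k + m)
      refine ⟨by rw [← add_assoc]; omega, fun u hu => ?_, fun z hz => ?_⟩
      · rw [← add_assoc, hs, h2 _ _ _ u (by omega), e2 u hu]
      · rw [← add_assoc, hs, h3 _ _ _ z (by omega), e3 z hz]
  have hcmp : ∀ k l, (∀ u : List Bool, u.length < (s k).N → u.length < (s l).N →
      (s l).w u = (s k).w u ∧ (s l).D u = (s k).D u) := by
    intro k l u hk hl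
    rcases le_total k l with h | h
    · obtain ⟨m, rfl⟩ := Nat.exists_eq_add_of_le h
      exact ⟨(hmono k m).2.1 u hk, (hmono k m).2.2 u hk⟩
    · obtain ⟨m, rfl⟩ := Nat.exists_eq_add_of_le h
      exact ⟨((hmono l m).2.1 u hl).symm, ((hmono l m).2.2 u hl).symm⟩
  let w : List Bool → List Bool := fun u => (s (u.length + 1)).w u
  let D : List Bool → Bool := fun z => (s (z.length + 1)).D z
  refine ⟨w, D, world T w D, fun u => (s (u.length + 1)).hw u, valid_world hT, ?_⟩
  intro i j
  have e5 := h4 (s (Nat.pair i j)) i j (world T w D)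
  have e6 : s (Nat.pair i j + 1) = nxt (s (Nat.pair i j)) i j := by
    rw [hs, Nat.unpair_pair]
  rw [← e6] at e5
  apply e5
  refine ((valid_world hT (w := w) (D := D)).agree hT (valid_world hT) (n :=
    (s (Nat.pair i j + 1)).N) ?_ ?_).mono (Nat.le_succ _)
  · intro u hu
    exact (hcmp (Nat.pair i j + 1) (u.length + 1) u hu (by have := hN' (u.length + 1); omega)).1
  · intro z hz
    exact (hcmp (Nat.pair i j + 1) (z.length + 1) z hz (by have := hN' (z.length + 1); omega)).2

end Pool.Agent.V8H49.Shrink
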