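import Pool.Agent.V8H49.Shrink.Limit

/-!
# The truth predicate of the construction, and the algorithms
-/

namespace Pool.Agent.V8H49.Shrink

open Pool.Agent.NPC Pool.Agent.H628R3.RO Pool.Agent.H622R2

theorem poly_replicate {α : Type} [TEnc α] {n : α → ℕ} (hn : UPoly n) (b : Bool) :
    Poly (fun a => List.replicate (n a) b) :=
  (NPC.Poly.map (F := fun _ _ => b) hn (NPC.Poly.const b)).congr fun a => by simp

/-- An algorithm without questions. -/
theorem isFP_of_poly (O : Oracle) {g : List Bool → List Bool} (hg : Poly g) : IsFP O g := by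
  have h1 : Poly (fun y => true :: g (unpair y).1) :=
    Poly.cons (NPC.Poly.const true) (hg.comp (Poly.fst poly_unpair))
  refine ⟨⟨_, polyTime_of_poly_list h1, 1⟩, fun x => ?_⟩
  simp [Alg.out, Alg.run, unpair_pairBits]

/-- An algorithm which asks one question and returns the answer. -/
theorem isFP_ask (O : Oracle) {g : List Bool → List Bool} (hg : Poly g) :
    IsFP O (fun z => [O (g z)]) := by
  have h1 : Poly (fun y => if (unpair y).2 = [] then false :: g (unpair y).1 else
      true :: (unpair y).2) :=
    Poly.ite (Poly.decide_eq (Poly.snd poly_unpair) (NPC.Poly.const []))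
      (Poly.cons (NPC.Poly.const false) (hg.comp (Poly.fst poly_unpair)))
      (Poly.cons (NPC.Poly.const true) (Poly.snd poly_unpair))
  refine ⟨⟨_, polyTime_of_poly_list h1, 2⟩, fun x => ?_⟩
  simp [Alg.out, Alg.run, unpair_pairBits]

theorem exists_bound (M : Alg) (p : Polynomial ℕ) : ∃ l : Polynomial ℕ, ∀ (O : Oracle)
    (x w : List Bool), w.length ≤ p.eval x.length → ∃ Q : Finset (List Bool),
      (∑ q ∈ Q, (q.length + 1)) ≤ l.eval x.length ∧
      ∀ O' : Oracle, (∀ q ∈ Q, O' q = O q) → M.out O' (pairBits x w) = M.out O (pairBits x w) := by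
  obtain ⟨b, hb⟩ := M.out_local
  refine ⟨(M.p * (b + Polynomial.C 1)).comp (Polynomial.C 2 * Polynomial.X + Polynomial.C 1 + p),
    fun O x w hw => ?_⟩
  obtain ⟨Q, h1, h2, h3⟩ := hb O (pairBits x w)
  refine ⟨Q, ?_, h3⟩
  have h4 : (pairBits x w).length ≤
      (Polynomial.C 2 * Polynomial.X + Polynomial.C 1 + p).eval x.length := by
    rw [length_pairBits]
    simp only [Polynomial.eval_add, Polynomial.eval_mul, Polynomial.eval_C, Polynomial.eval_X]
    omega
  calc (∑ q ∈ Q, (q.length + 1)) ≤ ∑ _q ∈ Q, (b.eval (pairBits x w).length + 1) :=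
        Finset.sum_le_sum fun q hq => Nat.succ_le_succ (h2 q hq)
    _ = Q.card * (b.eval (pairBits x w).length + 1) := by
        rw [Finset.sum_const, smul_eq_mul]
    _ ≤ M.p.eval (pairBits x w).length * (b.eval (pairBits x w).length + 1) :=
        Nat.mul_le_mul_right _ h1
    _ = (M.p * (b + Polynomial.C 1)).eval (pairBits x w).length := by
        rw [Polynomial.eval_mul, Polynomial.eval_add, Polynomial.eval_C]
    _ ≤ _ := by
        rw [Polynomial.eval_comp]
        exact eval_mono _ h4

instance : Countable (Polynomial ℕ) := by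
  have : Function.Injective (fun p : Polynomial ℕ => (p.toFinsupp.coeff : ℕ →₀ ℕ)) := by
    intro p q h
    ext n
    exact DFunLike.congr_fun h n
  exact this.countable

instance : Nonempty (Alg × Polynomial ℕ) :=
  ⟨⟨⟨fun _ => [], polyTime_of_poly_list (NPC.Poly.const []), 0⟩, 0⟩⟩

/-- an enumeration of all pairs of an oracle algorithm and a polynomial -/
noncomputable def en : ℕ → Alg × Polynomial ℕ := (exists_surjective_nat _).choose

theorem en_surjective : Function.Surjective en := (exists_surjective_nat _).choose_spec

/-- the bound for the number and the length of the questions -/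
noncomputable def ell (e : ℕ) : Polynomial ℕ := (exists_bound (en e).1 (en e).2).choose

theorem ell_spec (e : ℕ) : ∀ (O : Oracle)
    (x w : List Bool), w.length ≤ (en e).2.eval x.length → ∃ Q : Finset (List Bool),
      (∑ q ∈ Q, (q.length + 1)) ≤ (ell e).eval x.length ∧
      ∀ O' : Oracle, (∀ q ∈ Q, O' q = O q) →
        (en e).1.out O' (pairBits x w) = (en e).1.out O (pairBits x w) :=
  (exists_bound (en e).1 (en e).2).choose_spec

/-- The statement: the language number `e` contains `x`. -/
noncomputable def stm (e : ℕ) (x : List Bool) : List Bool :=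
  pairBits (List.replicate e true) (pairBits x (List.replicate ((ell e).eval x.length) true))

theorem stm_inj {e e' : ℕ} {x x' : List Bool} (h : stm e x = stm e' x') : e = e' ∧ x = x' := by
  obtain ⟨h1, h2⟩ := pairBits_inj h
  have h3 := congrArg List.length h1
  rw [List.length_replicate, List.length_replicate] at h3
  exact ⟨h3, (pairBits_inj h2).1⟩

/-- the length of a statement -/
noncomputable def lenP (e : ℕ) : Polynomial ℕ :=
  Polynomial.C (2 * e + 1) + (Polynomial.C 2 * Polynomial.X + Polynomial.C 1 + ell e)

theorem stm_length (e : ℕ) (x : List Bool) : (stm e x).length = (lenP e).eval x.length := by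
  unfold stm lenP
  rw [length_pairBits, length_pairBits, List.length_replicate, List.length_replicate]
  simp only [Polynomial.eval_add, Polynomial.eval_mul, Polynomial.eval_C, Polynomial.eval_X]

theorem poly_stm (e : ℕ) : Poly (stm e) :=
  poly_pairBits (NPC.Poly.const _) (poly_pairBits Poly.id
    (poly_replicate (UPoly.eval (UPoly.length Poly.id) _) true))

/-- membership in the language number `e` -/
def Acc (O : Oracle) (e : ℕ) (x : List Bool) : Prop :=
  ∃ w : List Bool, w.length ≤ (en e).2.eval x.length ∧
    (en e).1.out O (pairBits x w) = some [true]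

/-- truth of a statement -/
def Tr (O : Oracle) (u : List Bool) : Prop := ∃ e x, u = stm e x ∧ Acc O e x

theorem tr_stm (O : Oracle) (e : ℕ) (x : List Bool) : Tr O (stm e x) ↔ Acc O e x := by
  constructor
  · rintro ⟨e', x', h1, h2⟩
    obtain ⟨rfl, rfl⟩ := stm_inj h1
    exact h2
  · exact fun h => ⟨e, x, rfl, h⟩

theorem cert_tr : Cert Tr := by
  rintro O u ⟨e, x, rfl, w, hw, h⟩
  obtain ⟨Q, h1, h2⟩ := ell_spec e O x w hw
  refine ⟨Q, ?_, fun O' hO' => ⟨e, x, rfl, w, hw, ?_⟩⟩
  · refine h1.trans ?_
    rw [stm_length]
    unfold lenP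
    simp only [Polynomial.eval_add]
    omega
  · rw [h2 O' hO', h]

theorem exists_of_isNP {O : Oracle} {L : Set (List Bool)} (hL : IsNP O L) :
    ∃ e, ∀ x, x ∈ L ↔ Acc O e x := by
  obtain ⟨V, p, ⟨M, hM⟩, hV⟩ := hL
  obtain ⟨e, he⟩ := en_surjective (M, p)
  refine ⟨e, fun x => ?_⟩
  rw [hV]
  unfold Acc
  rw [he]
  refine exists_congr fun w => and_congr_right fun _ => ?_
  rw [hM, Option.some.injEq]

theorem growth (i j N : ℕ) : ∃ n ≥ N, (stm i (List.replicate n true)).length +
    (stm j (List.replicate n true)).length < 2 ^ n := by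
  obtain ⟨n, h1, h2⟩ := exists_poly_lt (lenP i + lenP j) N
  refine ⟨n, h1, ?_⟩
  rw [stm_length, stm_length, List.length_replicate]
  simpa using h2

section

variable {w : List Bool → List Bool} {D : List Bool → Bool} {O : Oracle}

/-- The test sets are in `NP`. -/
theorem isNP_test (O : Oracle) (c : Bool) : IsNP O {x | InA O c x} := by
  have hg : Poly (fun z : List Bool => false :: c :: z) :=
    Poly.cons (NPC.Poly.const _) (Poly.cons (NPC.Poly.const _) Poly.id)
  refine ⟨_, Polynomial.X, isFP_ask O hg, fun x => ?_⟩
  rw [Set.mem_ofPred_eq, InA]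
  refine exists_congr fun y => ?_
  rw [Polynomial.eval_X, List.cons.injEq]
  simp

/-- No shrinking. -/
theorem not_shrinking (h : ∀ i j, ∃ x, ¬ OK Tr stm O i j x) : ¬ Shrinking (IsNP O) := by
  intro hS
  obtain ⟨A', B', h1, h2, h3, h4, h5, h6⟩ := hS _ _ (isNP_test O false) (isNP_test O true)
  obtain ⟨i, hi⟩ := exists_of_isNP h1
  obtain ⟨j, hj⟩ := exists_of_isNP h2
  obtain ⟨x, hx⟩ := h i j
  apply hx
  unfold OK
  rw [tr_stm, tr_stm, ← hi, ← hj]
  refine ⟨fun h => h3 h, fun h => h4 h, fun h => ?_, fun h => ?_⟩
  · have : x ∈ A' ∩ B' := h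
    rw [h5] at this
    exact this
  · have : x ∈ A' ∪ B' := by rw [h6]; exact h
    exact this

/-- every language in `NP` is in `UP` -/
theorem isUP_of_isNP (hw : ∀ u, (w u).length = u.length) (hO : Valid Tr w D O)
    {L : Set (List Bool)} (hL : IsNP O L) : IsUP O L := by
  obtain ⟨e, he⟩ := exists_of_isNP hL
  have hg : Poly (fun z : List Bool => true :: pairBits (stm e (unpair z).1) (unpair z).2) :=
    Poly.cons (NPC.Poly.const _) (poly_pairBits ((poly_stm e).comp (Poly.fst poly_unpair))
      (Poly.snd poly_unpair))
  have h1 : ∀ x v : List Bool,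
      [O (true :: pairBits (stm e (unpair (pairBits x v)).1) (unpair (pairBits x v)).2)] = [true] ↔
        v = w (stm e x) ∧ Acc O e x := by
    intro x v
    rw [unpair_pairBits, List.cons.injEq, hO.code_pair, tr_stm]
    simp
  refine ⟨_, lenP e, isFP_ask O hg, fun x => ?_, fun x v v' _ _ h2 h3 => ?_⟩
  · rw [he]
    constructor
    · intro h
      exact ⟨w (stm e x), by rw [hw, stm_length], (h1 x _).2 ⟨rfl, h⟩⟩
    · rintro ⟨v, _, hv⟩
      exact ((h1 x v).1 hv).2
  · rw [((h1 x v).1 h2).1, ((h1 x v').1 h3).1]

/-- the complete set -/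
def KK (O : Oracle) : Set (List Bool) :=
  {u | ∃ v : List Bool, v.length ≤ u.length ∧ O (true :: pairBits u v) = true}

theorem mem_KK (hw : ∀ u, (w u).length = u.length) (hO : Valid Tr w D O) (u : List Bool) :
    u ∈ KK O ↔ Tr O u := by
  constructor
  · rintro ⟨v, _, h⟩
    exact ((hO.code_pair u v).1 h).2
  · intro h
    exact ⟨w u, (hw u).le, (hO.code_pair u _).2 ⟨rfl, h⟩⟩

theorem npComplete_KK (hw : ∀ u, (w u).length = u.length) (hO : Valid Tr w D O) :
    NPComplete O (KK O) := by
  constructor
  · have hg : Poly (fun z : List Bool => true :: z) := Poly.cons (NPC.Poly.const _) Poly.id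
    refine ⟨_, Polynomial.X, isFP_ask O hg, fun x => ?_⟩
    unfold KK
    rw [Set.mem_ofPred_eq]
    refine exists_congr fun y => ?_
    rw [Polynomial.eval_X, List.cons.injEq]
    simp
  · intro L hL
    obtain ⟨e, he⟩ := exists_of_isNP hL
    refine ⟨stm e, isFP_of_poly O (poly_stm e), fun x => ?_⟩
    rw [mem_KK hw hO, tr_stm, he]

/-- the question of the verifier for the hard pair -/
def gg (b : Bool) (y : List Bool) : List Bool :=
  if (unpair y).1 = (bif b then [] else [true]) then [] else
    if pairBits (unpair (unpair y).1).1 (unpair (unpair y).1).2 = (unpair y).1 then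
      true :: ((unpair y).1 ++ b :: (unpair y).2) else [true]

theorem poly_gg (b : Bool) : Poly (gg b) := by
  have h1 : Poly (fun y => (unpair y).1) := Poly.fst poly_unpair
  have h2 : Poly (fun y => (unpair y).2) := Poly.snd poly_unpair
  have h3 : Poly (fun y => unpair (unpair y).1) := poly_unpair.comp h1
  refine Poly.ite (Poly.decide_eq h1 (NPC.Poly.const _)) (NPC.Poly.const _) ?_
  refine Poly.ite (Poly.decide_eq (poly_pairBits (Poly.fst h3) (Poly.snd h3)) h1) ?_
    (NPC.Poly.const _)
  exact Poly.cons (NPC.Poly.const _) (Poly.append h1 (Poly.cons (NPC.Poly.const _) h2))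

/-- the sets of the hard pair -/
def HP (O : Oracle) (b : Bool) : Set (List Bool) :=
  {z | ∃ v : List Bool, v.length ≤ z.length ∧ O (gg b (pairBits z v)) = true}

theorem isNP_HP (O : Oracle) (b : Bool) : IsNP O (HP O b) := by
  refine ⟨_, Polynomial.X, isFP_ask O (poly_gg b), fun x => ?_⟩
  unfold HP
  rw [Set.mem_ofPred_eq]
  refine exists_congr fun y => ?_
  rw [Polynomial.eval_X, List.cons.injEq]
  simp

theorem pairBits_append (u s t : List Bool) : pairBits u s ++ t = pairBits u (s ++ t) := by
  simp [pairBits]

theorem pairBits_ne_nil (u s : List Bool) : pairBits u s ≠ [] := by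
  intro h
  have := congrArg List.length h
  rw [length_pairBits] at this
  simp at this

theorem pairBits_ne_true (u s : List Bool) : pairBits u s ≠ [true] := by
  intro h
  have h1 := congrArg List.length h
  rw [length_pairBits] at h1
  simp at h1
  have h2 : u = [] := List.eq_nil_of_length_eq_zero (by omega)
  subst h2
  simp [pairBits] at h

theorem mem_HP (hw : ∀ u, (w u).length = u.length) (hO : Valid Tr w D O) (b : Bool)
    (z : List Bool) : z ∈ HP O b ↔ z = (bif b then [] else [true]) ∨
      ∃ u s v, z = pairBits u s ∧ w u = s ++ b :: v ∧ Tr O u := by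
  unfold HP
  rw [Set.mem_ofPred_eq]
  constructor
  · rintro ⟨v, _, h⟩
    unfold gg at h
    rw [unpair_pairBits] at h
    by_cases h1 : z = (bif b then [] else [true])
    · exact Or.inl h1
    · rw [if_neg h1] at h
      by_cases h2 : pairBits (unpair z).1 (unpair z).2 = z
      · dsimp only at h
        rw [if_pos h2] at h
        rw [← h2, pairBits_append, hO.code_pair] at h
        refine Or.inr ⟨(unpair z).1, (unpair z).2, v, h2.symm, h.1.symm, h.2⟩
      · dsimp only at h
        rw [if_neg h2, hO.code] at h
        obtain ⟨u, h3, _⟩ := h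
        exact absurd h3.symm (pairBits_ne_nil _ _)
  · rintro (h | ⟨u, s, v, rfl, h2, h3⟩)
    · refine ⟨[], Nat.zero_le _, ?_⟩
      unfold gg
      rw [unpair_pairBits, if_pos h]
      exact hO.nil
    · refine ⟨v, ?_, ?_⟩
      · have h4 := congrArg List.length h2
        rw [hw, List.length_append, List.length_cons] at h4
        rw [length_pairBits]
        omega
      · unfold gg
        rw [unpair_pairBits]
        dsimp only
        rw [if_neg, unpair_pairBits, if_pos rfl, pairBits_append, hO.code_pair]
        · exact ⟨h2.symm, h3⟩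
        · cases b with
          | true => exact pairBits_ne_nil _ _
          | false => exact pairBits_ne_true _ _

theorem isNPPair_HP (hw : ∀ u, (w u).length = u.length) (hO : Valid Tr w D O) :
    IsNPPair O (HP O true) (HP O false) where
  left := isNP_HP O true
  right := isNP_HP O false
  left_nonempty := ⟨[], (mem_HP hw hO true _).2 (Or.inl rfl)⟩
  right_nonempty := ⟨[true], (mem_HP hw hO false _).2 (Or.inl rfl)⟩
  disjoint := by
    rw [Set.eq_empty_iff_forall_notMem]
    rintro z ⟨h1, h2⟩
    rw [mem_HP hw hO] at h1 h2
    rcases h1 with h1 | ⟨u, s, v, rfl, h3, h4⟩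
    · have h1' : z = [] := h1
      subst h1'
      rcases h2 with h2 | ⟨u, s, v, h2, _, _⟩
      · simp at h2
      · exact pairBits_ne_nil _ _ h2.symm
    · rcases h2 with h2 | ⟨u', s', v', h5, h6, h7⟩
      · exact pairBits_ne_true _ _ h2
      · obtain ⟨rfl, rfl⟩ := pairBits_inj h5
        rw [h3] at h6
        have := (List.append_right_inj _).1 h6
        simp at this

/-- the answers to the questions of the prefix search -/
def ext (E : Oracle) (u : List Bool) : ℕ → List Bool → List Bool
  | 0, a => a
  | k + 1, a => ext E u k (a ++ [E (pairBits u a)])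

theorem ext_length (E : Oracle) (u : List Bool) : ∀ (k : ℕ) (a : List Bool),
    (ext E u k a).length = a.length + k
  | 0, a => rfl
  | k + 1, a => by
    rw [ext, ext_length E u k, List.length_append, List.length_singleton]; ring

/-- the next action of the prefix search -/
noncomputable def act (e : ℕ) (y : List Bool) : List Bool :=
  if (unpair y).2.length < (stm e (unpair y).1).length then
    false :: true :: pairBits (stm e (unpair y).1) (unpair y).2
  else if (unpair y).2.length = (stm e (unpair y).1).length then
    false :: false :: true :: pairBits (stm e (unpair y).1) (unpair y).2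
  else [true, (unpair y).2.reverse.head?.getD false]

theorem poly_act (e : ℕ) : Poly (act e) := by
  have h1 : Poly (fun y => stm e (unpair y).1) := (poly_stm e).comp (Poly.fst poly_unpair)
  have h2 : Poly (fun y => (unpair y).2) := Poly.snd poly_unpair
  have h3 := poly_pairBits h1 h2
  refine Poly.ite (Poly.decide_lt (Poly.length h2) (Poly.length h1)) ?_ (Poly.ite
    (Poly.decide_eq (Poly.length h2) (Poly.length h1)) ?_ ?_)
  · exact Poly.cons (NPC.Poly.const _) (Poly.cons (NPC.Poly.const _) h3)
  · exact Poly.cons (NPC.Poly.const _) (Poly.cons (NPC.Poly.const _)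
      (Poly.cons (NPC.Poly.const _) h3))
  · exact Poly.cons (NPC.Poly.const _) (Poly.cons (Poly.head?_getD (Poly.reverse h2) _)
      (NPC.Poly.const _))

/-- the prefix search -/
noncomputable def search (e : ℕ) : Alg :=
  ⟨act e, polyTime_of_poly_list (poly_act e), lenP e + Polynomial.C 2⟩

theorem search_run (e : ℕ) (O E : Oracle) (x : List Bool) (m : ℕ) : ∀ (k : ℕ) (a : List Bool),
    a.length + k = (stm e x).length →
      (search e).run (join O E) x (k + m) a = (search e).run (join O E) x m (ext E (stm e x) k a)
  | 0, a, _ => by rw [Nat.zero_add]; rfl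
  | k + 1, a, h => by
    have h1 : (search e).D (pairBits x a) = false :: true :: pairBits (stm e x) a := by
      show act e _ = _
      unfold act
      rw [unpair_pairBits, if_pos (by dsimp only; omega)]
    rw [show k + 1 + m = (k + m) + 1 by ring, Alg.run, h1]
    dsimp only
    rw [show join O E (true :: pairBits (stm e x) a) = E (pairBits (stm e x) a) from rfl, ext]
    exact search_run e O E x m k _ (by
      rw [List.length_append, List.length_singleton]; omega)

theorem search_out (e : ℕ) (O E : Oracle) (x : List Bool) :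
    (search e).out (join O E) x =
      some [O (true :: pairBits (stm e x) (ext E (stm e x) (stm e x).length []))] := by
  have h0 : (search e).p.eval x.length = (stm e x).length + 2 := by
    rw [stm_length]
    show (lenP e + Polynomial.C 2).eval _ = _
    rw [Polynomial.eval_add, Polynomial.eval_C]
  rw [Alg.out, h0, search_run e O E x 2 _ _ (by simp)]
  have hl := ext_length E (stm e x) (stm e x).length []
  set a := ext E (stm e x) (stm e x).length [] with ha
  rw [List.length_nil, Nat.zero_add] at hl
  have h1 : (search e).D (pairBits x a) = false :: false :: true :: pairBits (stm e x) a := by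
    show act e _ = _
    unfold act
    rw [unpair_pairBits, if_neg (by dsimp only; omega), if_pos (by dsimp only; omega)]
  have h2 : ∀ c, (search e).D (pairBits x (a ++ [c])) = [true, c] := by
    intro c
    show act e _ = _
    unfold act
    rw [unpair_pairBits, if_neg (by
      dsimp only; rw [List.length_append, List.length_singleton]; omega), if_neg (by
      dsimp only; rw [List.length_append, List.length_singleton]; omega)]
    simp
  rw [Alg.run, h1]
  dsimp only
  rw [Alg.run, h2]
  rfl

/-- The pair is hard. -/
theorem tred_HP (hw : ∀ u, (w u).length = u.length) (hO : Valid Tr w D O)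
    {L : Set (List Bool)} (hL : IsNP O L) {S : Set (List Bool)}
    (hS : S ∈ Sep (HP O true) (HP O false)) : TRed O L S := by
  classical
  obtain ⟨e, he⟩ := exists_of_isNP hL
  refine ⟨fun x => [O (true :: pairBits (stm e x)
    (ext (chi S) (stm e x) (stm e x).length []))], ⟨search e, fun x => search_out e O _ x⟩,
    fun x => ?_⟩
  have key : ∀ u, Tr O u → ∀ (k : ℕ) (a : List Bool), a.length + k = u.length → a <+: w u →
      ext (chi S) u k a <+: w u := by
    intro u hu k
    induction k with
    | zero => exact fun a _ h => h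
    | succ k ih =>
      intro a h1 h2
      rw [ext]
      refine ih _ (by rw [List.length_append, List.length_singleton]; omega) ?_
      obtain ⟨t, ht⟩ := h2
      have h3 := congrArg List.length ht
      rw [List.length_append, hw] at h3
      obtain ⟨c, t', rfl⟩ : ∃ c t', t = c :: t' := by
        cases t with
        | nil => simp at h3; omega
        | cons c t' => exact ⟨c, t', rfl⟩
      have h4 : chi S (pairBits u a) = c := by
        cases c with
        | true =>
          have : pairBits u a ∈ HP O true :=
            (mem_HP hw hO true _).2 (Or.inr ⟨u, a, t', rfl, ht.symm, hu⟩)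
          simp only [chi, decide_eq_true_eq]
          exact hS.1 this
        | false =>
          have : pairBits u a ∈ HP O false :=
            (mem_HP hw hO false _).2 (Or.inr ⟨u, a, t', rfl, ht.symm, hu⟩)
          simp only [chi, decide_eq_false_iff_not]
          intro h5
          have h6 : pairBits u a ∈ HP O false ∩ S := ⟨this, h5⟩
          rw [hS.2] at h6
          exact h6
      rw [h4]
      exact ⟨t', by rw [List.append_assoc]; exact ht⟩
  rw [he, List.cons.injEq, hO.code_pair, tr_stm]
  constructor
  · intro h
    refine ⟨⟨?_, h⟩, rfl⟩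
    have h1 := key (stm e x) ((tr_stm O e x).2 h) (stm e x).length [] (by simp)
      (List.nil_prefix)
    exact h1.eq_of_length (by rw [ext_length, hw]; simp)
  · exact fun h => h.1.2

end

/-- Everything together. -/
theorem exists_oracle : ∃ O : Oracle, ¬ Shrinking (IsNP O) ∧ (∀ L, IsNP O L → IsUP O L) ∧
    ∃ A B, NPHardPair O A B := by
  obtain ⟨w, D, O, hw, hO, h⟩ := exists_world cert_tr stm growth
  refine ⟨O, not_shrinking h, fun L hL => isUP_of_isNP hw hO hL, HP O true, HP O false,
    isNPPair_HP hw hO, ⟨KK O, npComplete_KK hw hO⟩, fun K hK S hS => ⟨K, ?_, ?_⟩⟩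
  · exact ⟨subset_rfl, Set.compl_inter_self K⟩
  · exact tred_HP hw hO hK.1 hS

end Pool.Agent.V8H49.Shrink
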