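import Pool.Agent.V8H49.Shrink.World
import Pool.Agent.V8H49.Shrink.Count

/-!
# One stage of the construction
-/

namespace Pool.Agent.V8H49.Shrink

open Pool.Agent.NPC Pool.Agent.H628R3.RO

/-- the two test sets -/
def InA (O : Oracle) (c : Bool) (x : List Bool) : Prop :=
  ∃ y : List Bool, y.length ≤ x.length ∧ O (false :: c :: pairBits x y) = true

/-- At `x` the sets number `i` and `j` are as required for the shrinking property. -/
def OK (T : Oracle → List Bool → Prop) (st : ℕ → List Bool → List Bool) (O : Oracle) (i j : ℕ)
    (x : List Bool) : Prop :=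
  (T O (st i x) → InA O false x) ∧ (T O (st j x) → InA O true x) ∧
    ¬ (T O (st i x) ∧ T O (st j x)) ∧
    (InA O false x ∨ InA O true x → T O (st i x) ∨ T O (st j x))

theorem InA.congr {O O' : Oracle} {x : List Bool} {N : ℕ} (h : Agree N O O')
    (hN : 3 * x.length + 3 < N) (c : Bool) : InA O c x ↔ InA O' c x := by
  have key : ∀ y : List Bool, y.length ≤ x.length →
      O (false :: c :: pairBits x y) = O' (false :: c :: pairBits x y) := by
    intro y hy
    refine h _ ?_
    rw [List.length_cons, List.length_cons, length_pairBits]
    omega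
  constructor
  · rintro ⟨y, h1, h2⟩
    exact ⟨y, h1, by rw [← key y h1]; exact h2⟩
  · rintro ⟨y, h1, h2⟩
    exact ⟨y, h1, by rw [key y h1]; exact h2⟩

theorem OK.congr {T : Oracle → List Bool → Prop} (hT : Cert T) {st : ℕ → List Bool → List Bool}
    {O O' : Oracle} {i j : ℕ} {x : List Bool} {N : ℕ} (h : Agree N O O')
    (h1 : (st i x).length ≤ N) (h2 : (st j x).length ≤ N) (hN : 3 * x.length + 3 < N) :
    OK T st O i j x ↔ OK T st O' i j x := by
  unfold OK
  rw [InA.congr h hN false, InA.congr h hN true, hT.loc (h.mono h1), hT.loc (h.mono h2)]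

/-- The state of the construction. -/
structure State : Type where
  /-- the coding function -/
  w : List Bool → List Bool
  /-- the free part -/
  D : List Bool → Bool
  /-- everything below this bound is fixed -/
  N : ℕ
  /-- codes have the right length -/
  hw : ∀ u, (w u).length = u.length
  /-- above the bound the free part is empty -/
  hD : ∀ z : List Bool, N ≤ z.length → D z = false

open Classical in
/-- a certificate, as a function of the oracle -/
noncomputable def clos (T : Oracle → List Bool → Prop) (O : Oracle) (u : List Bool) :
    Finset (List Bool) :=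
  if h : ∃ G, Clos T O u G then h.choose else ∅

theorem clos_card (T : Oracle → List Bool → Prop) (O : Oracle) (u : List Bool) :
    (clos T O u).card ≤ u.length := by
  unfold clos
  split_ifs with h
  · exact h.choose_spec.1
  · simp

theorem clos_spec {T : Oracle → List Bool → Prop} (hT : Cert T) {w : List Bool → List Bool}
    {D : List Bool → Bool} {O : Oracle} (hO : Valid T w D O) {u : List Bool} (hu : T O u) :
    Clos T O u (clos T O u) := by
  have h := exists_clos hT hO u.length u le_rfl hu
  unfold clos
  rw [dif_pos h]
  exact h.choose_spec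

section

/-- the coordinates of the random choice -/
abbrev Coord (B : ℕ) : Type := {u : List Bool // u ∈ (List.finite_length_lt Bool B).toFinset} ⊕ Bool

variable {n B : ℕ}

/-- the random coding function -/
noncomputable def wr (S : State) (ω : Coord B → Fin n → Bool) (u : List Bool) : List Bool :=
  if h : u ∈ (List.finite_length_lt Bool B).toFinset ∧ n ≤ u.length then
    List.ofFn (ω (Sum.inl ⟨u, h.1⟩)) ++ List.replicate (u.length - n) false else S.w u

/-- the random free part -/
noncomputable def Dr (S : State) (ω : Coord B → Fin n → Bool) (c : Bool) (z : List Bool) : Bool :=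
  S.D z || decide (z = c :: pairBits (List.replicate n true) (List.ofFn (ω (Sum.inr c))))

/-- the string which belongs to a value of a coordinate -/
def codeOf (p : Coord B × (Fin n → Bool)) : List Bool :=
  match p.1 with
  | Sum.inl u => true :: pairBits u.1 (List.ofFn p.2 ++ List.replicate (u.1.length - n) false)
  | Sum.inr c => false :: c :: pairBits (List.replicate n true) (List.ofFn p.2)

theorem codeOf_injective : Function.Injective (codeOf (n := n) (B := B)) := by
  rintro ⟨i, v⟩ ⟨i', v'⟩ h
  match i, i', h with
  | Sum.inl u, Sum.inl u', h =>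
    simp only [codeOf, List.cons.injEq, true_and] at h
    obtain ⟨h1, h2⟩ := pairBits_inj h
    have h3 : u = u' := Subtype.ext h1
    subst h3
    have h4 := (List.append_left_inj _).1 h2
    rw [List.ofFn_injective h4]
  | Sum.inr c, Sum.inr c', h =>
    simp only [codeOf, List.cons.injEq, true_and] at h
    obtain ⟨rfl, h2⟩ := h
    rw [List.ofFn_injective (pairBits_inj h2).2]
  | Sum.inl u, Sum.inr c, h => simp [codeOf] at h
  | Sum.inr c, Sum.inl u, h => simp [codeOf] at h

/-- the random world -/
noncomputable def Or (T : Oracle → List Bool → Prop) (S : State) (ω : Coord B → Fin n → Bool)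
    (c : Bool) : Oracle := world T (wr S ω) (Dr S ω c)

/-- the value at the coordinate has no influence on the world -/
def Free (T : Oracle → List Bool → Prop) (S : State) (c : Bool) (ω : Coord B → Fin n → Bool) :
    Coord B → Prop
  | Sum.inl u => ¬ T (Or T S ω c) u.1
  | Sum.inr c' => c' ≠ c

open Classical in
/-- the values of coordinates which are touched by the certificate -/
noncomputable def Hit (T : Oracle → List Bool → Prop) (S : State) (c : Bool) (t : List Bool)
    (ω : Coord B → Fin n → Bool) : Finset (Coord B × (Fin n → Bool)) :=
  Finset.univ.filter (fun p => codeOf p ∈ clos T (Or T S ω c) t)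

theorem Hit_card (T : Oracle → List Bool → Prop) (S : State) (c : Bool) (t : List Bool)
    (ω : Coord B → Fin n → Bool) : (Hit T S c t ω).card ≤ t.length := by
  refine le_trans ?_ (clos_card T (Or T S ω c) t)
  refine Finset.card_le_card_of_injOn codeOf ?_ codeOf_injective.injOn
  intro p hp
  exact (Finset.mem_filter.1 hp).2

theorem wr_update_inr (S : State) (ω : Coord B → Fin n → Bool) (c : Bool) (v : Fin n → Bool) :
    wr S (Function.update ω (Sum.inr c) v) = wr S ω := by
  funext u
  unfold wr
  split_ifs with h
  · rw [Function.update_of_ne (by simp)]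
  · rfl

theorem Or_update {T : Oracle → List Bool → Prop} (hT : Cert T) (S : State) (c : Bool)
    (ω : Coord B → Fin n → Bool) (i : Coord B) (v : Fin n → Bool) (hi : Free T S c ω i) :
    Or T S (Function.update ω i v) c = Or T S ω c := by
  match i, hi with
  | Sum.inr c', hi =>
    have h1 : Dr S (Function.update ω (Sum.inr c') v) c = Dr S ω c := by
      funext z
      unfold Dr
      rw [Function.update_of_ne]
      intro h
      exact hi (Sum.inr.inj h).symm
    unfold Or
    rw [wr_update_inr, h1]
  | Sum.inl u, hi =>
    have h1 : Dr S (Function.update ω (Sum.inl u) v) c = Dr S ω c := by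
      funext z
      unfold Dr
      rw [Function.update_of_ne (by simp)]
    have h2 : ∀ u' : List Bool, u' ≠ u.1 →
        wr S (Function.update ω (Sum.inl u) v) u' = wr S ω u' := by
      intro u' hu'
      unfold wr
      split_ifs with h
      · rw [Function.update_of_ne]
        intro h3
        exact hu' (congrArg Subtype.val (Sum.inl.inj h3))
      · rfl
    have hv : Valid T (wr S ω) (Dr S ω c) (Or T S ω c) := valid_world hT
    refine Valid.unique hT (valid_world hT) ?_
    rw [h1, valid_iff]
    refine ⟨hv.nil, hv.free, fun z => ?_⟩
    rw [hv.code]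
    constructor
    · rintro ⟨u', h3, h4⟩
      refine ⟨u', ?_, h4⟩
      rw [h2 u']
      · exact h3
      · rintro rfl
        exact hi h4
    · rintro ⟨u', h3, h4⟩
      refine ⟨u', ?_, h4⟩
      rw [h2 u'] at h3
      · exact h3
      · rintro rfl
        exact hi h4

/-- A good choice exists. -/
theorem exists_good {T : Oracle → List Bool → Prop} (hT : Cert T) (S : State)
    (t : Bool → List Bool) (ht : (t false).length + (t true).length < 2 ^ n) :
    ∃ ω : Coord B → Fin n → Bool, ∀ c i, Free T S c ω i → (i, ω i) ∉ Hit T S c (t c) ω := by
  classical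
  let Bad : Bool → Finset (Coord B → Fin n → Bool) := fun c =>
    Finset.univ.filter (fun ω => ∃ i, Free T S c ω i ∧ (i, ω i) ∈ Hit T S c (t c) ω)
  have h1 : ∀ c, (Bad c).card * Fintype.card (Fin n → Bool) ≤
      (t c).length * Fintype.card (Coord B → Fin n → Bool) := by
    intro c
    refine count (Free T S c) (Hit T S c (t c)) _ (Hit_card T S c (t c)) ?_ (Bad c) ?_
    · intro ω i v hi
      unfold Hit
      rw [Or_update hT S c ω i v hi]
    · intro ω hω
      exact (Finset.mem_filter.1 hω).2
  have h2 : Fintype.card (Fin n → Bool) = 2 ^ n := by simp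
  have h3 : (Bad false ∪ Bad true).card < Fintype.card (Coord B → Fin n → Bool) := by
    have h4 := h1 false
    have h5 := h1 true
    rw [h2] at h4 h5
    have h6 : (Bad false ∪ Bad true).card ≤ (Bad false).card + (Bad true).card :=
      Finset.card_union_le _ _
    have h7 : 0 < Fintype.card (Coord B → Fin n → Bool) := Fintype.card_pos
    by_contra hcon
    rw [not_lt] at hcon
    have h8 : Fintype.card (Coord B → Fin n → Bool) * 2 ^ n ≤
        ((t false).length + (t true).length) * Fintype.card (Coord B → Fin n → Bool) := by
      calc Fintype.card (Coord B → Fin n → Bool) * 2 ^ n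
          ≤ ((Bad false).card + (Bad true).card) * 2 ^ n :=
            Nat.mul_le_mul_right _ (hcon.trans h6)
        _ ≤ ((t false).length + (t true).length) * Fintype.card (Coord B → Fin n → Bool) := by
            rw [add_mul, add_mul]; exact add_le_add h4 h5
    have h9 : ((t false).length + (t true).length) * Fintype.card (Coord B → Fin n → Bool) <
        2 ^ n * Fintype.card (Coord B → Fin n → Bool) := Nat.mul_lt_mul_of_pos_right ht h7
    rw [mul_comm (2 ^ n)] at h9
    omega
  obtain ⟨ω, hω⟩ : ∃ ω, ω ∉ Bad false ∪ Bad true := by
    by_contra hcon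
    push Not at hcon
    have : (Bad false ∪ Bad true) = Finset.univ := Finset.eq_univ_iff_forall.2 hcon
    rw [this, Finset.card_univ] at h3
    exact lt_irrefl _ h3
  rw [Finset.mem_union, not_or] at hω
  refine ⟨ω, ?_⟩
  intro c i h4 h5
  cases c with
  | false => exact hω.1 (Finset.mem_filter.2 ⟨Finset.mem_univ _, i, h4, h5⟩)
  | true => exact hω.2 (Finset.mem_filter.2 ⟨Finset.mem_univ _, i, h4, h5⟩)

end

theorem wr_length {n B : ℕ} (S : State) (ω : Coord B → Fin n → Bool) (u : List Bool) :
    (wr S ω u).length = u.length := by
  unfold wr
  split_ifs with h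
  · simp; omega
  · exact S.hw u

/-- One stage: a shrinking is destroyed. -/
theorem extend {T : Oracle → List Bool → Prop} (hT : Cert T) (st : ℕ → List Bool → List Bool)
    (hst : ∀ i j N, ∃ n ≥ N, (st i (List.replicate n true)).length +
      (st j (List.replicate n true)).length < 2 ^ n) (S : State) (i j : ℕ) :
    ∃ S' : State, S.N < S'.N ∧ (∀ u : List Bool, u.length < S.N → S'.w u = S.w u) ∧
      (∀ z : List Bool, z.length < S.N → S'.D z = S.D z) ∧
      ∀ O, Agree S'.N O (world T S'.w S'.D) → ∃ x, ¬ OK T st O i j x := by
  obtain ⟨n, hn, hq⟩ := hst i j S.N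
  set x : List Bool := List.replicate n true with hx
  have hxl : x.length = n := List.length_replicate ..
  let t : Bool → List Bool := fun c => if c = true then st j x else st i x
  set B : ℕ := (st i x).length + (st j x).length with hB
  by_contra hcon
  -- all worlds of the stage are fine at `x`
  have hfine : ∀ (ω : Coord B → Fin n → Bool) (D' : List Bool → Bool),
      (∀ z : List Bool, 3 * n + 3 ≤ z.length → D' z = false) →
      (∀ z : List Bool, z.length < S.N → D' z = S.D z) →
      OK T st (world T (wr S ω) D') i j x := by
    intro ω D' h1 h2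
    by_contra h3
    refine hcon ⟨⟨wr S ω, D', B + 3 * n + 4, wr_length S ω, fun z hz => h1 z (by omega)⟩,
      by dsimp only; omega, ?_, h2, ?_⟩
    · intro u hu
      dsimp only
      unfold wr
      rw [dif_neg (by omega)]
    · intro O hO
      refine ⟨x, ?_⟩
      rw [OK.congr hT hO (by dsimp only; omega) (by dsimp only; omega) (by dsimp only; omega)]
      exact h3
  obtain ⟨ω, hω⟩ := exists_good (n := n) (B := B) hT S t hq
  have hlen : ∀ (c : Bool) (y : List Bool), (c :: pairBits x y).length = 2 * n + 2 + y.length := by
    intro c y
    rw [List.length_cons, length_pairBits, hxl]; ring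
  have hS : ∀ (c : Bool) (y : List Bool), S.D (c :: pairBits x y) = false := by
    intro c y
    apply S.hD
    rw [hlen]; omega
  have hDr1 : ∀ (c : Bool) (z : List Bool), 3 * n + 3 ≤ z.length → Dr S ω c z = false := by
    intro c z hz
    unfold Dr
    rw [S.hD z (by omega), Bool.false_or, decide_eq_false_iff_not]
    rintro rfl
    rw [hlen, List.length_ofFn] at hz
    omega
  have hDr2 : ∀ (c : Bool) (z : List Bool), z.length < 2 * n + 2 → Dr S ω c z = S.D z := by
    intro c z hz
    unfold Dr
    have : ¬ (z = c :: pairBits (List.replicate n true) (List.ofFn (ω (Sum.inr c)))) := by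
      rintro rfl
      rw [hlen] at hz
      omega
    rw [decide_eq_false this, Bool.or_false]
  let DD : List Bool → Bool := fun z => Dr S ω false z || Dr S ω true z
  have hfineD := hfine ω DD (fun z hz => by simp [DD, hDr1 _ z hz])
    (fun z hz => by simp [DD, hDr2 _ z (by omega)])
  have hmem : ∀ c, InA (Or T S ω c) c x := by
    intro c
    refine ⟨List.ofFn (ω (Sum.inr c)), by rw [List.length_ofFn, hxl], ?_⟩
    have hv : Valid T (wr S ω) (Dr S ω c) (Or T S ω c) := valid_world hT
    rw [hv.free]
    simp [Dr, hx]
  have hnot : ∀ c, ¬ InA (Or T S ω c) (!c) x := by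
    rintro c ⟨y, _, h2⟩
    have hv : Valid T (wr S ω) (Dr S ω c) (Or T S ω c) := valid_world hT
    rw [hv.free] at h2
    unfold Dr at h2
    rw [hS, Bool.false_or, decide_eq_true_eq] at h2
    have h3 := (List.cons.inj h2).1
    simp at h3
  have hpos : ∀ c, T (Or T S ω c) (t c) := by
    intro c
    have h1 := hfine ω (Dr S ω c) (hDr1 c) (fun z hz => hDr2 c z (by omega))
    change OK T st (Or T S ω c) i j x at h1
    cases c with
    | false =>
      rcases h1.2.2.2 (Or.inl (hmem false)) with h2 | h2
      · exact h2
      · exact absurd (h1.2.1 h2) (hnot false)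
    | true =>
      rcases h1.2.2.2 (Or.inr (hmem true)) with h2 | h2
      · exact absurd (h1.1 h2) (hnot true)
      · exact h2
  have htB : ∀ c, (t c).length ≤ B := by
    intro c
    cases c with
    | false => show (st i x).length ≤ B; omega
    | true => show (st j x).length ≤ B; omega
  have htr : ∀ c, T (world T (wr S ω) DD) (t c) := by
    intro c
    have hv : Valid T (wr S ω) (Dr S ω c) (Or T S ω c) := valid_world hT
    have hG := clos_spec hT hv (hpos c)
    refine hG.transfer hT hv (valid_world hT) (n := n) ?_ ?_ ?_
    · intro z hz
      simp only [DD]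
      rw [hDr2 c z (by omega), hDr2 false z (by omega), hDr2 true z (by omega), Bool.or_self]
    · intro z hz
      by_contra h1
      have h2 : Dr S ω (!c) z ≠ Dr S ω c z := by
        intro h2
        apply h1
        cases c <;> simp_all [DD]
      have h3 : z = (!c) :: pairBits (List.replicate n true) (List.ofFn (ω (Sum.inr (!c)))) := by
        by_contra h3
        have h4 : Dr S ω (!c) z = S.D z := by
          unfold Dr
          rw [decide_eq_false h3, Bool.or_false]
        apply h1
        have h5 : Dr S ω c z = true ∨ Dr S ω c z = false := by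
          cases Dr S ω c z <;> simp
        rcases h5 with h5 | h5
        · cases c <;> simp [DD, h5]
        · have h6 : S.D z = false := by
            unfold Dr at h5
            exact (Bool.or_eq_false_iff.1 h5).1
          rw [h6] at h4
          cases c <;> simp_all [DD]
      refine hω c (Sum.inr (!c)) ?_ ?_
      · intro h4
        cases c <;> simp at h4
      · refine Finset.mem_filter.2 ⟨Finset.mem_univ _, ?_⟩
        rw [h3] at hz
        exact hz
    · intro u' hu' hTu
      by_contra h1
      rw [not_lt] at h1
      have h2 := hG.2.1 _ hu'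
      rw [List.length_cons, length_pairBits] at h2
      have h3 : u' ∈ (List.finite_length_lt Bool B).toFinset := by
        rw [Set.Finite.mem_toFinset]
        have := htB c
        show u'.length < B
        omega
      refine hω c (Sum.inl ⟨u', h3⟩) hTu ?_
      refine Finset.mem_filter.2 ⟨Finset.mem_univ _, ?_⟩
      unfold wr at hu'
      rw [dif_pos ⟨h3, h1⟩] at hu'
      exact hu'
  exact hfineD.2.2.1 ⟨htr false, htr true⟩

end Pool.Agent.V8H49.Shrink
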