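import Pool.Agent.V8H49.Shrink.Defs
import Pool.Agent.H628R3.RO.A1

/-!
# Oracles which code their own `NP`-truth in a unique way
-/

namespace Pool.Agent.V8H49.Shrink

open Pool.Agent.NPC Pool.Agent.H628R3.RO

theorem pairBits_inj {x w x' w' : List Bool} (h : pairBits x w = pairBits x' w') :
    x = x' ∧ w = w' := by
  have h1 := congrArg unpair h
  rw [unpair_pairBits, unpair_pairBits, Prod.mk.injEq] at h1
  exact h1

/-- Positive facts have small certificates. -/
def Cert (T : Oracle → List Bool → Prop) : Prop :=
  ∀ O u, T O u → ∃ Q : Finset (List Bool), (∑ q ∈ Q, (q.length + 1)) ≤ u.length ∧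
    ∀ O' : Oracle, (∀ q ∈ Q, O' q = O q) → T O' u

/-- the oracles agree on the strings of length less than `n` -/
def Agree (n : ℕ) (O O' : Oracle) : Prop := ∀ s : List Bool, s.length < n → O s = O' s

theorem Agree.symm {n : ℕ} {O O' : Oracle} (h : Agree n O O') : Agree n O' O :=
  fun s hs => (h s hs).symm

theorem Agree.mono {m n : ℕ} {O O' : Oracle} (h : Agree n O O') (hmn : m ≤ n) : Agree m O O' :=
  fun s hs => h s (by omega)

theorem Agree.trans {n : ℕ} {O O' O'' : Oracle} (h : Agree n O O') (h' : Agree n O' O'') :
    Agree n O O'' := fun s hs => (h s hs).trans (h' s hs)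

theorem Cert.loc {T : Oracle → List Bool → Prop} (hT : Cert T) {O O' : Oracle} {u : List Bool}
    (h : Agree u.length O O') : T O u ↔ T O' u := by
  have key : ∀ {O O' : Oracle}, Agree u.length O O' → T O u → T O' u := by
    intro O O' h hu
    obtain ⟨Q, h1, h2⟩ := hT O u hu
    refine h2 O' fun q hq => (h q ?_).symm
    have h3 := Finset.single_le_sum (f := fun q : List Bool => q.length + 1)
      (fun _ _ => Nat.zero_le _) hq
    omega
  exact ⟨key h, key h.symm⟩

open Classical in
/-- One step of the construction of an oracle from the coding function `w` and the free part `D`. -/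
noncomputable def step (T : Oracle → List Bool → Prop) (w : List Bool → List Bool)
    (D : List Bool → Bool) (O : Oracle) : Oracle
  | [] => true
  | false :: z => D z
  | true :: z => decide (∃ u, z = pairBits u (w u) ∧ T O u)

/-- The oracle is the world for the coding function `w` and the free part `D`. -/
def Valid (T : Oracle → List Bool → Prop) (w : List Bool → List Bool) (D : List Bool → Bool)
    (O : Oracle) : Prop := step T w D O = O

section

variable {T : Oracle → List Bool → Prop} {w w' : List Bool → List Bool} {D D' : List Bool → Bool}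
  {O O' : Oracle}

theorem Valid.nil (h : Valid T w D O) : O [] = true := by
  rw [← h]; rfl

theorem Valid.free (h : Valid T w D O) (z : List Bool) : O (false :: z) = D z := by
  conv_lhs => rw [← h]
  rfl

theorem Valid.code (h : Valid T w D O) (z : List Bool) :
    O (true :: z) = true ↔ ∃ u, z = pairBits u (w u) ∧ T O u := by
  conv_lhs => rw [← h]
  simp only [step, decide_eq_true_eq]

theorem Valid.code_pair (h : Valid T w D O) (u v : List Bool) :
    O (true :: pairBits u v) = true ↔ v = w u ∧ T O u := by
  rw [h.code]
  constructor
  · rintro ⟨u', h1, h2⟩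
    obtain ⟨rfl, rfl⟩ := pairBits_inj h1
    exact ⟨rfl, h2⟩
  · rintro ⟨rfl, h2⟩
    exact ⟨u, rfl, h2⟩

theorem Valid.code_false (h : Valid T w D O) {z : List Bool} :
    O (true :: z) = false ↔ ∀ u, z = pairBits u (w u) → ¬ T O u := by
  rw [← Bool.not_eq_true, h.code]
  push Not
  rfl

theorem valid_iff : Valid T w D O ↔ O [] = true ∧ (∀ z, O (false :: z) = D z) ∧
    ∀ z, O (true :: z) = true ↔ ∃ u, z = pairBits u (w u) ∧ T O u := by
  constructor
  · exact fun h => ⟨h.nil, h.free, h.code⟩
  · rintro ⟨h1, h2, h3⟩
    funext s
    match s with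
    | [] => exact h1.symm
    | false :: z => exact (h2 z).symm
    | true :: z =>
      have h4 := h3 z
      rw [Bool.eq_iff_iff, h4]
      simp only [step, decide_eq_true_eq]

theorem length_lt_pairBits (u v : List Bool) : u.length < (pairBits u v).length := by
  rw [length_pairBits]; omega

theorem step_agree (hT : Cert T) {n : ℕ} (hw : ∀ u : List Bool, u.length < n → w u = w' u)
    (hD : ∀ z : List Bool, z.length < n → D z = D' z) (h : Agree n O O') :
    Agree (n + 1) (step T w D O) (step T w' D' O') := by
  intro s hs
  match s, hs with
  | [], _ => rfl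
  | false :: z, hs =>
    exact hD z (by simpa using hs)
  | true :: z, hs =>
    simp only [step]
    rw [decide_eq_decide]
    have hz : z.length < n := by simpa using hs
    constructor
    · rintro ⟨u, rfl, h2⟩
      have h3 := length_lt_pairBits u (w u)
      refine ⟨u, by rw [hw u (by omega)], (hT.loc (h.mono (by omega))).1 h2⟩
    · rintro ⟨u, rfl, h2⟩
      have h3 := length_lt_pairBits u (w' u)
      refine ⟨u, by rw [hw u (by omega)], (hT.loc (h.mono (by omega))).2 h2⟩

theorem iter_agree (hT : Cert T) {N : ℕ} (hw : ∀ u : List Bool, u.length < N → w u = w' u)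
    (hD : ∀ z : List Bool, z.length < N → D z = D' z) (O O' : Oracle) :
    ∀ n ≤ N + 1, Agree n ((step T w D)^[n] O) ((step T w' D')^[n] O') := by
  intro n
  induction n with
  | zero => intro _ s hs; simp at hs
  | succ n ih =>
    intro hn
    rw [Function.iterate_succ_apply', Function.iterate_succ_apply']
    exact step_agree hT (fun u hu => hw u (by omega)) (fun z hz => hD z (by omega))
      (ih (by omega))

/-- The world for the coding function `w` and the free part `D`. -/
noncomputable def world (T : Oracle → List Bool → Prop) (w : List Bool → List Bool)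
    (D : List Bool → Bool) : Oracle :=
  fun s => (step T w D)^[s.length + 1] (fun _ => false) s

theorem world_agree_iter (hT : Cert T) (n : ℕ) :
    Agree n (world T w D) ((step T w D)^[n] (fun _ => false)) := by
  intro s hs
  obtain ⟨k, rfl⟩ : ∃ k, n = s.length + 1 + k := ⟨n - (s.length + 1), by omega⟩
  rw [Function.iterate_add_apply]
  exact iter_agree hT (N := s.length) (fun _ _ => rfl) (fun _ _ => rfl) _ _ _ le_rfl s
    (by omega)

theorem valid_world (hT : Cert T) : Valid T w D (world T w D) := by
  funext s
  have h := step_agree (w := w) (w' := w) (D := D) (D' := D) hT (n := s.length)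
    (fun _ _ => rfl) (fun _ _ => rfl) (world_agree_iter (w := w) (D := D) hT s.length)
  rw [h s (by omega), world, Function.iterate_succ_apply']

theorem Valid.iter (h : Valid T w D O) (n : ℕ) : (step T w D)^[n] O = O := by
  induction n with
  | zero => rfl
  | succ n ih => rw [Function.iterate_succ_apply', ih]; exact h

theorem Valid.agree (hT : Cert T) (h : Valid T w D O) (h' : Valid T w' D' O') {n : ℕ}
    (hw : ∀ u : List Bool, u.length < n → w u = w' u)
    (hD : ∀ z : List Bool, z.length < n → D z = D' z) : Agree (n + 1) O O' := by
  have := iter_agree hT hw hD O O' (n + 1) le_rfl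
  rwa [h.iter, h'.iter] at this

theorem Valid.unique (hT : Cert T) (h : Valid T w D O) (h' : Valid T w D O') : O = O' := by
  funext s
  exact h.agree hT h' (n := s.length) (fun _ _ => rfl) (fun _ _ => rfl) s (by omega)

/-- A certificate for `u` in `O` which consists of strings in the oracle or outside of it; it also
contains certificates for all positive facts which it uses. -/
def Clos (T : Oracle → List Bool → Prop) (O : Oracle) (u : List Bool) (G : Finset (List Bool)) :
    Prop :=
  G.card ≤ u.length ∧ (∀ s ∈ G, s.length < u.length) ∧
    ∀ w' D' O', Valid T w' D' O' → (∀ z, false :: z ∈ G → O' (false :: z) = O (false :: z)) →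
      (∀ u' v', true :: pairBits u' v' ∈ G → O (true :: pairBits u' v') = true → w' u' = v') →
      (∀ z, true :: z ∈ G → O (true :: z) = false → O' (true :: z) = false) → T O' u

theorem exists_clos (hT : Cert T) (hO : Valid T w D O) : ∀ (n : ℕ) (u : List Bool),
    u.length ≤ n → T O u → ∃ G, Clos T O u G := by
  classical
  intro n
  induction n with
  | zero =>
    intro u hu h
    obtain ⟨Q, h1, h2⟩ := hT O u h
    refine ⟨∅, by simp, by simp, ?_⟩
    intro w' D' O' h' _ _ _
    refine h2 O' fun q hq => ?_
    have h3 := Finset.single_le_sum (f := fun q : List Bool => q.length + 1)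
      (fun _ _ => Nat.zero_le _) hq
    omega
  | succ n ih =>
    intro u hu h
    obtain ⟨Q, h1, h2⟩ := hT O u h
    have hlt : ∀ q ∈ Q, q.length < u.length := by
      intro q hq
      have h3 := Finset.single_le_sum (f := fun q : List Bool => q.length + 1)
        (fun _ _ => Nat.zero_le _) hq
      omega
    have key : ∀ q : List Bool, q.length < u.length → ∃ G : Finset (List Bool),
        G.card ≤ q.length + 1 ∧ (∀ s ∈ G, s.length ≤ q.length) ∧
        ∀ w' D' O', Valid T w' D' O' →
          (∀ z, false :: z ∈ G → O' (false :: z) = O (false :: z)) →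
          (∀ u' v', true :: pairBits u' v' ∈ G → O (true :: pairBits u' v') = true → w' u' = v') →
          (∀ z, true :: z ∈ G → O (true :: z) = false → O' (true :: z) = false) →
          O' q = O q := by
      intro q hq
      match q, hq with
      | [], _ =>
        refine ⟨∅, by simp, by simp, fun w' D' O' h' _ _ _ => ?_⟩
        rw [h'.nil, hO.nil]
      | false :: z, _ =>
        refine ⟨{false :: z}, by simp, by simp, fun w' D' O' h' h4 _ _ => ?_⟩
        exact h4 z (by simp)
      | true :: z, hq =>
        by_cases hz : O (true :: z) = true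
        · obtain ⟨u', rfl, h5⟩ := (hO.code z).1 hz
          have h6 := length_lt_pairBits u' (w u')
          have h7 : (true :: pairBits u' (w u')).length = (pairBits u' (w u')).length + 1 := by
            simp
          obtain ⟨G, hG1, hG2, hG3⟩ := ih u' (by omega) h5
          refine ⟨insert (true :: pairBits u' (w u')) G, ?_, ?_, ?_⟩
          · refine (Finset.card_insert_le _ _).trans ?_
            omega
          · intro s hs
            rcases Finset.mem_insert.1 hs with rfl | hs
            · exact le_rfl
            · have := hG2 s hs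
              omega
          · intro w' D' O' h' h8 h9 h10
            have h11 : w' u' = w u' := h9 u' (w u') (Finset.mem_insert_self _ _) hz
            have h12 : T O' u' := hG3 w' D' O' h' (fun z hz => h8 z (Finset.mem_insert_of_mem hz))
              (fun u' v' hz => h9 u' v' (Finset.mem_insert_of_mem hz))
              (fun z hz => h10 z (Finset.mem_insert_of_mem hz))
            rw [hz, h'.code_pair]
            exact ⟨h11.symm, h12⟩
        · rw [Bool.not_eq_true] at hz
          refine ⟨{true :: z}, by simp, by simp, fun w' D' O' h' _ _ h4 => ?_⟩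
          rw [hz]
          exact h4 z (by simp) hz
    choose! g hg using key
    refine ⟨Q.biUnion g, ?_, ?_, ?_⟩
    · refine Finset.card_biUnion_le.trans (le_trans (Finset.sum_le_sum ?_) h1)
      exact fun q hq => (hg q (hlt q hq)).1
    · intro s hs
      obtain ⟨q, hq, hs⟩ := Finset.mem_biUnion.1 hs
      exact ((hg q (hlt q hq)).2.1 s hs).trans_lt (hlt q hq)
    · intro w' D' O' h' h8 h9 h10
      refine h2 O' fun q hq => ?_
      exact (hg q (hlt q hq)).2.2 w' D' O' h'
        (fun z hz => h8 z (Finset.mem_biUnion.2 ⟨q, hq, hz⟩))
        (fun u' v' hz => h9 u' v' (Finset.mem_biUnion.2 ⟨q, hq, hz⟩))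
        (fun z hz => h10 z (Finset.mem_biUnion.2 ⟨q, hq, hz⟩))

/-- Transfer of a positive fact to another world with the same coding function. -/
theorem Clos.transfer (hT : Cert T) (hO : Valid T w D O) (hO' : Valid T w D' O') {n : ℕ}
    (hD : ∀ z : List Bool, z.length < n → D z = D' z) {u : List Bool} {G : Finset (List Bool)}
    (hG : Clos T O u G) (h1 : ∀ z, false :: z ∈ G → D' z = D z)
    (h2 : ∀ u', true :: pairBits u' (w u') ∈ G → ¬ T O u' → u'.length < n) : T O' u := by
  refine hG.2.2 w D' O' hO' ?_ ?_ ?_
  · intro z hz
    rw [hO.free, hO'.free]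
    exact h1 z hz
  · intro u' v' _ hu'
    exact ((hO.code_pair u' v').1 hu').1.symm
  · intro z hz hz'
    rw [hO'.code_false]
    rintro u' rfl hu'
    have h3 := hO.code_false.1 hz' u' rfl
    have h4 := h2 u' hz h3
    exact h3 ((hT.loc ((hO.agree hT hO' (fun _ _ => rfl) hD).mono (by omega))).2 hu')

end

end Pool.Agent.V8H49.Shrink
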